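import Pool.Agent.Results.MP_7cf8d2_co.PrescribedClass

set_option autoImplicit false
set_option linter.unusedSectionVars false

/-!
# Cycle double covers through a 2-regular subgraph: flows and small components

The definitions `MemberOfFive`, `FourFlowOff`, `Joined`, `Colourable`, `OddCircuitSet`, `FewOddCircuits`, `IsComponentOff` are those of
`Pool.Agent.Results.MP_7cf8d2_co.PrescribedClass`.
-/

open Finset

namespace Pool.Agent.Results.MP_0c3aa4_co.ColourableComponents

open Pool.Agent.Helper347.Sab
open Pool.Agent.Results.MP_7cf8d2_co.PrescribedClass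

variable {V E : Type} [Fintype V] [DecidableEq V] [Fintype E] [DecidableEq E]

/-- `S` is the edge set of a 2-regular subgraph. -/
def TwoRegular (G : MGraph V E) (S : Finset E) : Prop := ∀ v, dg G S v = 0 ∨ dg G S v = 2

/-- Some cycle double cover of `G` (a set of circuits such that every edge lies in exactly two of
them) contains every circuit of `S`. -/
def CoverThrough (G : MGraph V E) (S : Finset E) : Prop :=
  ∃ F : Finset (Finset E), (∀ C ∈ F, IsCircuit G C) ∧
    (∀ e, (F.filter fun C => e ∈ C).card = 2) ∧ ∀ C, IsCircuit G C → C ⊆ S → C ∈ F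

theorem through_of_multiset (G : MGraph V E) (hG : IsCubic G) (S : Finset E)
    (F : Multiset (Finset E)) (h1 : ∀ X ∈ F, IsCircuit G X) (h2 : ∀ e, F.countP (e ∈ ·) = 2)
    (h3 : ∀ C, IsCircuit G C → C ⊆ S → C ∈ F) : CoverThrough G S := by
  have hnd := Pool.Agent.Results.MP_0c3aa4_co.ThroughDominating.nodup_cover G hG F h1 h2
  refine ⟨⟨F, hnd⟩, fun X hX => h1 X hX, fun e => ?_, fun C hC hCS => h3 C hC hCS⟩
  have := h2 e
  rw [Multiset.countP_eq_card_filter] at this
  exact this

theorem cover_of_member (G : MGraph V E) (hG : IsCubic G) (S : Finset E) (hS : TwoRegular G S)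
    (h : MemberOfFive G S) : CoverThrough G S := by
  obtain ⟨D, h0, hD, h2⟩ := h
  choose M m1 m2 using fun i => Pool.Agent.W831.HI.decompose_ev G (D i) (hD i)
  apply through_of_multiset G hG S (∑ i, M i)
  · intro X hX
    rw [Multiset.mem_sum] at hX
    obtain ⟨i, _, hi⟩ := hX
    exact m1 i X hi
  · intro e
    have h3 := Pool.Agent.W831.HI.countP_sum (univ : Finset (Fin 5)) M e
    rw [h3, ← h2 e, card_filter]
    exact sum_congr rfl fun i _ => m2 i e
  · intro C hC hCS
    rw [Multiset.mem_sum]
    refine ⟨0, mem_univ _, ?_⟩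
    refine Pool.Agent.Helper998.Near.mem_decomp G S hS (M 0) (m1 0) ?_ C hC hCS
    intro e
    rw [m2 0 e, h0]

/-- Let `G` be a cubic multigraph in which every edge lies on a circuit, and `S` a 2-regular subgraph
of `G`.
(1) If the vertices of `S` lie on a circuit `D` of `G` such that each component of `G - V(D)` is
3-edge-colourable, or has at most eight vertices, or contains at most three vertex sets of odd
circuits of 2-factors of `G` that at least five edges leave, then some cycle double cover of `G`
contains `S`.
(2) If `G - E(S)` is connected then `S` is a member of a 5-cycle double cover of `G` if and only if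
`G/E(S)` has a nowhere-zero 4-flow; in this case some cycle double cover of `G` contains `S`. -/
theorem result (G : MGraph V E) (hG : IsCubic G)
    (hbr : ∀ e : E, ∃ X : Finset E, IsCircuit G X ∧ e ∈ X) (S : Finset E) (hS : TwoRegular G S) :
    (∀ D : Finset E, IsCircuit G D → (∀ v, dg G S v = 2 → dg G D v = 2) →
      (∀ K : Finset V, IsComponentOff G D K →
        Colourable G K ∨ K.card ≤ 8 ∨ FewOddCircuits G K) → CoverThrough G S) ∧
    ((∀ u w, Joined G S u w) →
      (MemberOfFive G S ↔ FourFlowOff G S) ∧ (MemberOfFive G S → CoverThrough G S)) := by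
  have key : (∀ u w, Joined G S u w) → FourFlowOff G S → MemberOfFive G S := by
    rintro hconn ⟨A, B, hA, hB, hAB⟩
    apply member_of_flows G S hS
    intro v
    exact ⟨A, B, hA, hB, fun f _ _ u _ => hconn v u, fun f hf _ => hAB f hf⟩
  refine ⟨?_, fun hconn => ⟨⟨flow_of_member G S, key hconn⟩, cover_of_member G hG S hS⟩⟩
  intro D hD hSD hK
  have hoff : OffColourable G D := by
    apply off_of_components
    intro K hK'
    rcases hK K hK' with h1 | h1 | h1
    · exact h1
    · exact colourable_of_small G hG hbr K h1
    · exact colourable_of_few G hG hbr K h1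
  obtain ⟨A, B, hA, hB, hAB⟩ :=
    Pool.Agent.Results.MP_e720fa_co.ColourableComplement.colour_flow G hG D hD hoff
  obtain ⟨T, t1, t2⟩ := decompose G _ S le_rfl hS
  have hT : Pool.Agent.Y392.SD.OnCircuit G D T := by
    refine ⟨fun C hC => ⟨t1 C hC, fun v hv => hSD v ?_⟩, fun e => ?_⟩
    · have hCS : C ⊆ S := by
        intro e he
        have h4 : 0 < T.countP (fun X => e ∈ X) := Multiset.countP_pos.2 ⟨C, hC, he⟩
        rw [t2 e] at h4
        by_contra hcon
        rw [if_neg hcon] at h4
        omega
      have h5 : dg G C v ≤ dg G S v := card_le_card (filter_subset_filter _ hCS)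
      rcases hS v with h6 | h6
      · omega
      · exact h6
    · rw [t2 e]
      split_ifs <;> omega
  obtain ⟨F, hF, hle⟩ := Pool.Agent.Y392.SD.family_flow G D hD A B hA hB hAB T hT
  apply through_of_multiset G hG S F hF.1 hF.2
  intro C hC hCS
  exact Multiset.mem_of_le hle
    (Pool.Agent.Helper998.Near.mem_decomp G S hS T t1 t2 C hC hCS)

end Pool.Agent.Results.MP_0c3aa4_co.ColourableComponents
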